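import Mathlib

/-!
# The polytope move graph under a volume window with a maximum is disconnected
-/

namespace Pool.Agent.Results.MP_208a82_co.MaximumIsolates

open MeasureTheory Set Pointwise

variable {d : ℕ}

/-- `P` is a `d`-dimensional polytope in `R^d`: the convex hull of finitely many points whose affine
span is the whole space. -/
def IsPolytope (P : Set (Fin d → ℝ)) : Prop :=
  (∃ V : Set (Fin d → ℝ), V.Finite ∧ P = convexHull ℝ V) ∧ affineSpan ℝ P = ⊤

/-- `Q` is obtained from `P` by the insertion of a point `x`: `Q = conv(P ∪ {x})` has vertex set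
exactly `V(P) ∪ {x}`. -/
def Inserts (P Q : Set (Fin d → ℝ)) : Prop :=
  ∃ x : Fin d → ℝ, Q = convexHull ℝ (P ∪ {x}) ∧
    Q.extremePoints ℝ = P.extremePoints ℝ ∪ {x}

/-- The vertices of `Γ_I(d)`: the `d`-dimensional polytopes with volume in `I`. -/
abbrev Vert (d : ℕ) (I : Set ℝ) :=
  {P : Set (Fin d → ℝ) // IsPolytope P ∧ (volume P).toReal ∈ I}

/-- The graph `Γ_I(d)`: two different polytopes are adjacent when one is obtained from the other by
an insertion. -/
def moveGraph (d : ℕ) (I : Set ℝ) : SimpleGraph (Vert d I) :=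
  SimpleGraph.fromRel (fun P Q => Inserts P.1 Q.1)

lemma polytope_convex {P : Set (Fin d → ℝ)} (hP : IsPolytope P) : Convex ℝ P := by
  obtain ⟨⟨V, hV, rfl⟩, _⟩ := hP
  exact convex_convexHull ℝ V

lemma polytope_compact {P : Set (Fin d → ℝ)} (hP : IsPolytope P) : IsCompact P := by
  obtain ⟨⟨V, hV, rfl⟩, _⟩ := hP
  exact hV.isCompact_convexHull (𝕜 := ℝ)

lemma extreme_finite {P : Set (Fin d → ℝ)} (hP : IsPolytope P) : (P.extremePoints ℝ).Finite := by
  obtain ⟨⟨V, hV, rfl⟩, _⟩ := hP
  exact hV.subset extremePoints_convexHull_subset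

lemma hull_extreme {P : Set (Fin d → ℝ)} (hP : IsPolytope P) :
    convexHull ℝ (P.extremePoints ℝ) = P := by
  have h := closure_convexHull_extremePoints (polytope_compact hP) (polytope_convex hP)
  rw [IsClosed.closure_eq] at h
  · exact h
  · exact (extreme_finite hP).isClosed_convexHull (𝕜 := ℝ)

lemma interior_nonempty {P : Set (Fin d → ℝ)} (hP : IsPolytope P) : (interior P).Nonempty :=
  (polytope_convex hP).interior_nonempty_iff_affineSpan_eq_top.2 hP.2

lemma volume_lt {P Q : Set (Fin d → ℝ)} (hP : IsPolytope P) (hQ : IsPolytope Q) (hPQ : P ⊆ Q)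
    (hne : P ≠ Q) : (volume P).toReal < (volume Q).toReal := by
  have hx : ∃ x ∈ Q, x ∉ P := by
    by_contra h
    push Not at h
    exact hne (Subset.antisymm hPQ h)
  obtain ⟨x, hxQ, hxP⟩ := hx
  have hopen : IsOpen (interior Q \ P) := isOpen_interior.sdiff (polytope_compact hP).isClosed
  have hne2 : (interior Q \ P).Nonempty := by
    have h1 : x ∈ closure (interior Q) := by
      rw [(polytope_convex hQ).closure_interior_eq_closure_of_nonempty_interior (interior_nonempty hQ)]
      exact subset_closure hxQ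
    have h2 : Pᶜ ∈ nhds x := (polytope_compact hP).isClosed.isOpen_compl.mem_nhds hxP
    rw [mem_closure_iff_nhds] at h1
    obtain ⟨y, hy1, hy2⟩ := h1 _ h2
    exact ⟨y, hy2, hy1⟩
  have hpos : 0 < volume (interior Q \ P) := hopen.measure_pos volume hne2
  have hfinP : volume P ≠ ⊤ := (polytope_compact hP).measure_ne_top
  have hfinQ : volume Q ≠ ⊤ := (polytope_compact hQ).measure_ne_top
  rw [ENNReal.toReal_lt_toReal hfinP hfinQ]
  have hdisj : Disjoint P (interior Q \ P) := disjoint_sdiff_right
  calc volume P < volume P + volume (interior Q \ P) :=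
        ENNReal.lt_add_right hfinP hpos.ne'
    _ = volume (P ∪ (interior Q \ P)) :=
        (measure_union hdisj hopen.measurableSet).symm
    _ ≤ volume Q := by
        apply measure_mono
        intro y hy
        rcases hy with hy | hy
        · exact hPQ hy
        · exact interior_subset hy.1

/-- few points do not span -/
lemma card_lt_of_span {V : Set (Fin d → ℝ)} (hV : V.Finite) (h : affineSpan ℝ V = ⊤) :
    d + 1 ≤ V.ncard := by
  classical
  have hne : V.Nonempty := by
    rw [← affineSpan_nonempty ℝ, h]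
    exact ⟨0, trivial⟩
  obtain ⟨n, hn⟩ : ∃ n, V.ncard = n + 1 := by
    have : 0 < V.ncard := (Set.ncard_pos hV).2 hne
    exact ⟨V.ncard - 1, by omega⟩
  have h1 := finrank_vectorSpan_image_finset_le ℝ (id : (Fin d → ℝ) → (Fin d → ℝ)) hV.toFinset
    (n := n) (by rw [← hn, Set.ncard_eq_toFinset_card V hV])
  have h2 : ((hV.toFinset.image id : Finset (Fin d → ℝ)) : Set (Fin d → ℝ)) = V := by
    simp
  rw [h2] at h1
  have h3 : vectorSpan ℝ V = ⊤ :=
    AffineSubspace.vectorSpan_eq_top_of_affineSpan_eq_top ℝ (Fin d → ℝ) (Fin d → ℝ) h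
  rw [h3, finrank_top, Module.finrank_fintype_fun_eq_card, Fintype.card_fin] at h1
  omega

/-- vertices of the scaled standard simplex -/
def simplexV (d : ℕ) (c : ℝ) : Set (Fin d → ℝ) :=
  insert 0 (Set.range (fun i : Fin d => (Pi.single i c : Fin d → ℝ)))

lemma simplexV_finite (d : ℕ) (c : ℝ) : (simplexV d c).Finite := (Set.finite_range _).insert _

lemma simplexV_ncard (d : ℕ) (c : ℝ) : (simplexV d c).ncard ≤ d + 1 := by
  unfold simplexV
  refine (Set.ncard_insert_le _ _).trans ?_
  have : (Set.range (fun i : Fin d => (Pi.single i c : Fin d → ℝ))).ncard ≤ d := by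
    rw [← Set.image_univ]
    refine (Set.ncard_image_le (Set.finite_univ)).trans ?_
    rw [Set.ncard_univ, Nat.card_fin]
  omega

/-- scaled standard simplex -/
def simplexP (d : ℕ) (c : ℝ) : Set (Fin d → ℝ) := convexHull ℝ (simplexV d c)

lemma simplex_polytope (c : ℝ) (hc : 0 < c) : IsPolytope (simplexP d c) := by
  refine ⟨⟨simplexV d c, simplexV_finite d c, rfl⟩, ?_⟩
  unfold simplexP
  rw [affineSpan_convexHull]
  have h0 : (0 : Fin d → ℝ) ∈ simplexV d c := Or.inl rfl
  rw [AffineSubspace.affineSpan_eq_top_iff_vectorSpan_eq_top_of_nonempty ℝ (Fin d → ℝ) (Fin d → ℝ)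
    ⟨0, h0⟩, vectorSpan_eq_span_vsub_set_right ℝ h0, eq_top_iff]
  intro x _
  have hx : x = ∑ i, (x i / c) • (Pi.single i c : Fin d → ℝ) := by
    funext j
    rw [Finset.sum_apply]
    simp only [Pi.smul_apply, smul_eq_mul, Pi.single_apply, mul_ite, mul_zero]
    rw [Finset.sum_ite_eq Finset.univ j (fun i => x i / c * c), if_pos (Finset.mem_univ _)]
    field_simp
  rw [hx]
  refine Submodule.sum_mem _ (fun i _ => Submodule.smul_mem _ _ (Submodule.subset_span ?_))
  exact ⟨Pi.single i c, Or.inr ⟨i, rfl⟩, by simp⟩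

lemma simplex_smul (c : ℝ) : simplexP d c = c • simplexP d 1 := by
  unfold simplexP
  rw [← convexHull_smul]
  congr 1
  unfold simplexV
  ext x
  constructor
  · rintro (rfl | ⟨i, rfl⟩)
    · exact ⟨0, Or.inl rfl, by simp⟩
    · refine ⟨Pi.single i 1, Or.inr ⟨i, rfl⟩, ?_⟩
      show c • (Pi.single i 1 : Fin d → ℝ) = Pi.single i c
      rw [← Pi.single_smul]; simp
  · rintro ⟨y, (rfl | ⟨i, rfl⟩), rfl⟩
    · left; simp
    · right
      refine ⟨i, ?_⟩
      show Pi.single i c = c • (Pi.single i 1 : Fin d → ℝ)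
      rw [← Pi.single_smul]; simp

lemma exists_volume (hd : d ≠ 0) (v : ℝ) (hv : 0 < v) :
    ∃ c : ℝ, 0 < c ∧ (volume (simplexP d c)).toReal = v := by
  have h1 : 0 < (volume (simplexP d 1)).toReal := by
    have hP := simplex_polytope (d := d) 1 one_pos
    rw [ENNReal.toReal_pos_iff]
    refine ⟨?_, (polytope_compact hP).measure_lt_top⟩
    exact lt_of_lt_of_le (isOpen_interior.measure_pos volume (interior_nonempty hP))
      (measure_mono interior_subset)
  set v0 := (volume (simplexP d 1)).toReal with hv0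
  refine ⟨(v / v0) ^ ((1 : ℝ) / d), Real.rpow_pos_of_pos (div_pos hv h1) _, ?_⟩
  rw [simplex_smul, Measure.addHaar_smul, ENNReal.toReal_mul, ← hv0]
  have hpow : ((v / v0) ^ ((1 : ℝ) / d)) ^ (Module.finrank ℝ (Fin d → ℝ)) = v / v0 := by
    rw [Module.finrank_fintype_fun_eq_card, Fintype.card_fin, ← Real.rpow_natCast,
      ← Real.rpow_mul (div_pos hv h1).le]
    have : (1 : ℝ) / d * d = 1 := by
      have : (d : ℝ) ≠ 0 := by exact_mod_cast hd
      field_simp
    rw [this, Real.rpow_one]
  rw [hpow, abs_of_pos (div_pos hv h1), ENNReal.toReal_ofReal (div_pos hv h1).le]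
  field_simp

lemma simplex_isolated {I : Set ℝ} {M : ℝ} (hM : IsGreatest I M) (P Q : Vert d I) (c : ℝ)
    (hP : P.1 = simplexP d c) (hv : (volume P.1).toReal = M) : ¬ (moveGraph d I).Adj P Q := by
  intro hadj
  unfold moveGraph at hadj
  rw [SimpleGraph.fromRel_adj] at hadj
  obtain ⟨hne, h | h⟩ := hadj
  · -- `Q` is obtained by inserting a point in `P`
    obtain ⟨x, hQ, _⟩ := h
    have hsub : P.1 ⊆ Q.1 := by
      rw [hQ]
      exact (subset_union_left).trans (subset_convexHull ℝ _)
    have hlt := volume_lt P.2.1 Q.2.1 hsub (fun h => hne (Subtype.ext h))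
    have hle := hM.2 Q.2.2
    rw [hv] at hlt
    linarith
  · -- `P` is obtained by inserting a point in `Q`
    obtain ⟨x, hPx, hext⟩ := h
    have hxQ : x ∉ Q.1.extremePoints ℝ := by
      intro hx
      rw [union_eq_self_of_subset_right (singleton_subset_iff.2 hx)] at hext
      apply hne
      apply Subtype.ext
      rw [← hull_extreme P.2.1, ← hull_extreme Q.2.1, hext]
    have hspan : affineSpan ℝ (Q.1.extremePoints ℝ) = ⊤ := by
      rw [← affineSpan_convexHull, hull_extreme Q.2.1]
      exact Q.2.1.2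
    have h1 := card_lt_of_span (extreme_finite Q.2.1) hspan
    have h2 : (P.1.extremePoints ℝ).ncard = (Q.1.extremePoints ℝ).ncard + 1 := by
      rw [hext, union_singleton, Set.ncard_insert_of_notMem hxQ (extreme_finite Q.2.1)]
    have h3 : (P.1.extremePoints ℝ).ncard ≤ d + 1 := by
      refine le_trans (Set.ncard_le_ncard ?_ (simplexV_finite d c)) (simplexV_ncard d c)
      rw [hP]
      exact extremePoints_convexHull_subset
    omega

lemma not_reachable {V : Type} (G : SimpleGraph V) (P Q : V) (h : ∀ R, ¬ G.Adj P R) (hne : P ≠ Q) :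
    ¬ G.Reachable P Q := by
  rintro ⟨w⟩
  cases w with
  | nil => exact hne rfl
  | cons hh _ => exact h _ hh

/-- If a non-trivial interval `I` of positive reals has a maximum, then for every `d ≥ 1` (in
particular for every `d ≥ 2`) the graph `Γ_I(d)` is not connected: there are two polytopes with
volumes in `I`, one of them being any scaled standard simplex whose volume is the maximum of `I`,
that are not joined by any sequence of insertions and deletions staying in `Γ_I(d)`. -/
theorem result : ∀ d : ℕ, 2 ≤ d → ∀ I : Set ℝ, I ⊆ Set.Ioi 0 → I.OrdConnected → I.Nontrivial →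
    (∃ M, IsGreatest I M) →
    (∃ P Q : Vert d I, ¬ (moveGraph d I).Reachable P Q) ∧ ¬ (moveGraph d I).Connected := by
  intro d hd I hI _ hnt hM
  obtain ⟨M, hM⟩ := hM
  obtain ⟨v, hv, hvM⟩ := hnt.exists_ne M
  obtain ⟨c, hc, hcv⟩ := exists_volume (d := d) (by omega) M (hI hM.1)
  obtain ⟨c', hc', hcv'⟩ := exists_volume (d := d) (by omega) v (hI hv)
  let P : Vert d I := ⟨simplexP d c, simplex_polytope c hc, by rw [hcv]; exact hM.1⟩
  let Q : Vert d I := ⟨simplexP d c', simplex_polytope c' hc', by rw [hcv']; exact hv⟩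
  have hne : P ≠ Q := by
    intro h
    have h1 : simplexP d c = simplexP d c' := congrArg Subtype.val h
    rw [← h1, hcv] at hcv'
    exact hvM hcv'.symm
  have hnr : ¬ (moveGraph d I).Reachable P Q :=
    not_reachable _ P Q (fun R => simplex_isolated hM P R c rfl hcv) hne
  exact ⟨⟨P, Q, hnr⟩, fun hcon => hnr (hcon.preconnected P Q)⟩

end Pool.Agent.Results.MP_208a82_co.MaximumIsolates
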